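import Pool.Agent.AFJ.Stmts

set_option autoImplicit false

open scoped BigOperators Matrix

noncomputable section

namespace Pool.Agent.AFJ.H1

open Pool.Agent.LE.QF Pool.Agent.AFJ

theorem enb_gd {X : Type} [Fintype X] [DecidableEq X] (G : Matrix X X ℂ) (μ : X → ℂ) (x y : X) :
    GD G μ x y = ∑ c, G x c * μ c * G c y := by
  unfold GD
  rw [Matrix.mul_apply]
  refine Finset.sum_congr rfl fun c _ => ?_
  rw [Matrix.mul_diagonal]

theorem enb : EnbStmt := by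
  intro X _ _ G κ μ b R T κv κR μs r hN hκv hκR hμs hr hRT hκb hκRR hμb hμ0 hT
  have hKn : ∀ x y, 0 ≤ KK G x y := fun x y => by unfold KK; positivity
  have hKs : ∀ x y, KK G x y = KK G y x := fun x y => by unfold KK; rw [hN.hs x y]
  -- (1)
  have p1 : ∀ x, ∑ y, κ y * KK G x y = (G x x).im := by
    intro x
    have h := hN.hw x x
    have h' : ((∑ y, κ y * KK G x y : ℝ) : ℂ) = (((G x x).im : ℝ) : ℂ) := by
      rw [← h]
      push_cast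
      refine Finset.sum_congr rfl fun y _ => ?_
      rw [Complex.mul_conj, Complex.normSq_eq_norm_sq]
      unfold KK
      push_cast
      ring
    exact_mod_cast h'
  -- the mass in b
  have pm : ∀ x ∈ T, ∑ c ∈ b, KK G x c ≤ r / κv := by
    intro x hx
    rw [le_div_iff₀ hκv, Finset.sum_mul]
    refine le_trans (Finset.sum_le_sum fun c hc => ?_) (hT x hx)
    rw [mul_comm]
    exact mul_le_mul_of_nonneg_right (hκb c hc) (hKn x c)
  have hgb : ∀ x y, ‖GD G μ x y‖ ≤ μs * ∑ c ∈ b, ‖G x c‖ * ‖G c y‖ := by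
    intro x y
    rw [enb_gd]
    have e1 : ∑ c, G x c * μ c * G c y = ∑ c ∈ b, G x c * μ c * G c y := by
      symm
      refine Finset.sum_subset (Finset.subset_univ b) fun c _ hc => ?_
      rw [hμ0 c hc]
      ring
    rw [e1, Finset.mul_sum]
    refine (norm_sum_le _ _).trans (Finset.sum_le_sum fun c hc => ?_)
    rw [norm_mul, norm_mul]
    have := hμb c hc
    calc ‖G x c‖ * ‖μ c‖ * ‖G c y‖ = ‖μ c‖ * (‖G x c‖ * ‖G c y‖) := by ring
      _ ≤ μs * (‖G x c‖ * ‖G c y‖) := mul_le_mul_of_nonneg_right this (by positivity)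
  -- (2)
  have p2 : ∀ x ∈ T, ∀ y ∈ T, ‖GD G μ x y‖ ≤ μs * r / κv := by
    intro x hx y hy
    refine (hgb x y).trans ?_
    have c1 : (∑ c ∈ b, ‖G x c‖ * ‖G c y‖) ^ 2 ≤ (∑ c ∈ b, ‖G x c‖ ^ 2) * ∑ c ∈ b, ‖G c y‖ ^ 2 :=
      Finset.sum_mul_sq_le_sq_mul_sq b _ _
    have c2 : ∑ c ∈ b, ‖G x c‖ ^ 2 ≤ r / κv := pm x hx
    have c3 : ∑ c ∈ b, ‖G c y‖ ^ 2 ≤ r / κv := by
      have : ∑ c ∈ b, ‖G c y‖ ^ 2 = ∑ c ∈ b, KK G y c := by
        refine Finset.sum_congr rfl fun c _ => ?_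
        unfold KK
        rw [hN.hs c y]
      rw [this]
      exact pm y hy
    have c4 : (∑ c ∈ b, ‖G x c‖ * ‖G c y‖) ^ 2 ≤ (r / κv) ^ 2 := by
      refine c1.trans ?_
      rw [sq]
      exact mul_le_mul c2 c3 (Finset.sum_nonneg fun c _ => sq_nonneg _) (by positivity)
    have c5 := (abs_le_of_sq_le_sq' c4 (by positivity)).2
    calc μs * ∑ c ∈ b, ‖G x c‖ * ‖G c y‖ ≤ μs * (r / κv) := mul_le_mul_of_nonneg_left c5 hμs
      _ = μs * r / κv := by ring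
  -- (3)
  have p3 : ∀ x ∈ T, ∑ y, κ y * ‖GD G μ x y‖ ^ 2 ≤ μs ^ 2 * r / κv ^ 2 := by
    intro x hx
    have h := hN.hn (fun c => μ c * G x c / (κ c : ℂ))
    have e1 : ∀ y, ∑ c, G y c * ((κ c : ℂ) * (μ c * G x c / (κ c : ℂ))) = GD G μ x y := by
      intro y
      rw [enb_gd]
      refine Finset.sum_congr rfl fun c _ => ?_
      have hk : (κ c : ℂ) ≠ 0 := by
        have := (hN.hκ c).ne'
        exact_mod_cast this
      rw [hN.hs c y]
      field_simp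
    simp only [e1] at h
    refine h.trans ?_
    have e2 : ∑ c, κ c * ‖μ c * G x c / (κ c : ℂ)‖ ^ 2 =
        ∑ c ∈ b, κ c * ‖μ c * G x c / (κ c : ℂ)‖ ^ 2 := by
      symm
      refine Finset.sum_subset (Finset.subset_univ b) fun c _ hc => ?_
      rw [hμ0 c hc]
      simp
    rw [e2]
    have e3 : ∀ c ∈ b, κ c * ‖μ c * G x c / (κ c : ℂ)‖ ^ 2 ≤ μs ^ 2 / κv ^ 2 * (κ c * KK G x c) := by
      intro c hc
      have hk := hN.hκ c
      have hkv := hκb c hc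
      have hm := hμb c hc
      rw [norm_div, norm_mul, Complex.norm_real, Real.norm_of_nonneg hk.le, div_pow, mul_pow]
      have f1 : ‖μ c‖ ^ 2 ≤ μs ^ 2 := pow_le_pow_left₀ (norm_nonneg _) hm 2
      have f2 : κv ^ 2 ≤ κ c ^ 2 := pow_le_pow_left₀ hκv.le hkv 2
      have f3 : ‖μ c‖ ^ 2 / κ c ^ 2 ≤ μs ^ 2 / κv ^ 2 :=
        div_le_div₀ (by positivity) f1 (by positivity) f2
      have f4 : κ c * (‖μ c‖ ^ 2 * ‖G x c‖ ^ 2 / κ c ^ 2) =
          ‖μ c‖ ^ 2 / κ c ^ 2 * (κ c * ‖G x c‖ ^ 2) := by ring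
      rw [f4]
      exact mul_le_mul_of_nonneg_right f3 (by positivity)
    refine (Finset.sum_le_sum e3).trans ?_
    rw [← Finset.mul_sum]
    calc μs ^ 2 / κv ^ 2 * ∑ c ∈ b, κ c * KK G x c ≤ μs ^ 2 / κv ^ 2 * r :=
          mul_le_mul_of_nonneg_left (hT x hx) (by positivity)
      _ = μs ^ 2 * r / κv ^ 2 := by ring
  -- (4)
  have p4 : ∀ x ∈ T, ∑ y ∈ R, ‖GD G μ x y‖ ^ 4 ≤
      (μs * r / κv) ^ 2 * (μs ^ 2 * r / (κv ^ 2 * κR)) := by
    intro x hx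
    have e1 : ∀ y ∈ R, ‖GD G μ x y‖ ^ 4 ≤
        (μs * r / κv) ^ 2 * (κ y * ‖GD G μ x y‖ ^ 2 / κR) := by
      intro y hy
      have f1 : ‖GD G μ x y‖ ^ 2 ≤ (μs * r / κv) ^ 2 :=
        pow_le_pow_left₀ (norm_nonneg _) (p2 x hx y (hRT hy)) 2
      have f2 : ‖GD G μ x y‖ ^ 2 ≤ κ y * ‖GD G μ x y‖ ^ 2 / κR := by
        rw [le_div_iff₀ hκR, mul_comm]
        exact mul_le_mul_of_nonneg_right (hκRR y hy) (sq_nonneg _)
      calc ‖GD G μ x y‖ ^ 4 = ‖GD G μ x y‖ ^ 2 * ‖GD G μ x y‖ ^ 2 := by ring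
        _ ≤ _ := mul_le_mul f1 f2 (sq_nonneg _) (sq_nonneg _)
    refine (Finset.sum_le_sum e1).trans ?_
    rw [← Finset.mul_sum, ← Finset.sum_div]
    refine mul_le_mul_of_nonneg_left ?_ (sq_nonneg _)
    have e2 : ∑ y ∈ R, κ y * ‖GD G μ x y‖ ^ 2 ≤ ∑ y, κ y * ‖GD G μ x y‖ ^ 2 := by
      refine Finset.sum_le_sum_of_subset_of_nonneg (Finset.subset_univ R) fun y _ _ => ?_
      exact mul_nonneg (hN.hκ y).le (sq_nonneg _)
    calc (∑ y ∈ R, κ y * ‖GD G μ x y‖ ^ 2) / κR ≤ (μs ^ 2 * r / κv ^ 2) / κR :=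
          div_le_div_of_nonneg_right (e2.trans (p3 x hx)) hκR.le
      _ = μs ^ 2 * r / (κv ^ 2 * κR) := by
          rw [div_div]
  -- (5)
  have p5 : ∀ x, (∑ y ∈ R, KK G x y * EK G μ x y) ^ 4 ≤
      16 * LaR G R x ^ 3 * ∑ y ∈ R, ‖GD G μ x y‖ ^ 4 := by
    intro x
    set S : ℝ := ∑ y ∈ R, KK G x y * (‖G x y‖ * ‖GD G μ x y‖) with hS
    have hS0 : 0 ≤ S := Finset.sum_nonneg fun y _ => mul_nonneg (hKn x y) (by positivity)
    have e1 : |∑ y ∈ R, KK G x y * EK G μ x y| ≤ 2 * S := by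
      refine (Finset.abs_sum_le_sum_abs _ _).trans ?_
      rw [hS, Finset.mul_sum]
      refine Finset.sum_le_sum fun y _ => ?_
      rw [abs_mul, abs_of_nonneg (hKn x y)]
      have f1 : |EK G μ x y| ≤ 2 * (‖G x y‖ * ‖GD G μ x y‖) := by
        unfold EK
        rw [abs_mul, abs_two]
        refine mul_le_mul_of_nonneg_left ?_ (by norm_num)
        refine (Complex.abs_re_le_norm _).trans ?_
        rw [norm_mul, RCLike.norm_conj]
      calc KK G x y * |EK G μ x y| ≤ KK G x y * (2 * (‖G x y‖ * ‖GD G μ x y‖)) :=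
            mul_le_mul_of_nonneg_left f1 (hKn x y)
        _ = 2 * (KK G x y * (‖G x y‖ * ‖GD G μ x y‖)) := by ring
    have hL0 : 0 ≤ LaR G R x := Finset.sum_nonneg fun y _ => sq_nonneg _
    have e2 : S ^ 2 ≤ LaR G R x * ∑ y ∈ R, KK G x y * ‖GD G μ x y‖ ^ 2 := by
      have c1 : S ^ 2 ≤ (∑ y ∈ R, KK G x y ^ 2) * ∑ y ∈ R, (‖G x y‖ * ‖GD G μ x y‖) ^ 2 :=
        Finset.sum_mul_sq_le_sq_mul_sq R _ _
      refine c1.trans (le_of_eq ?_)
      unfold LaR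
      refine congrArg _ (Finset.sum_congr rfl fun y _ => ?_)
      unfold KK
      ring
    have e3 : (∑ y ∈ R, KK G x y * ‖GD G μ x y‖ ^ 2) ^ 2 ≤
        LaR G R x * ∑ y ∈ R, ‖GD G μ x y‖ ^ 4 := by
      have c1 : (∑ y ∈ R, KK G x y * ‖GD G μ x y‖ ^ 2) ^ 2 ≤
          (∑ y ∈ R, KK G x y ^ 2) * ∑ y ∈ R, (‖GD G μ x y‖ ^ 2) ^ 2 :=
        Finset.sum_mul_sq_le_sq_mul_sq R _ _
      refine c1.trans (le_of_eq ?_)
      unfold LaR
      refine congrArg _ (Finset.sum_congr rfl fun y _ => ?_)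
      ring
    have hM0 : 0 ≤ ∑ y ∈ R, KK G x y * ‖GD G μ x y‖ ^ 2 :=
      Finset.sum_nonneg fun y _ => mul_nonneg (hKn x y) (sq_nonneg _)
    calc (∑ y ∈ R, KK G x y * EK G μ x y) ^ 4
        = |∑ y ∈ R, KK G x y * EK G μ x y| ^ 4 := by
          rw [← abs_pow, abs_of_nonneg (by positivity)]
      _ ≤ (2 * S) ^ 4 := pow_le_pow_left₀ (abs_nonneg _) e1 4
      _ = 16 * (S ^ 2) ^ 2 := by ring
      _ ≤ 16 * (LaR G R x * ∑ y ∈ R, KK G x y * ‖GD G μ x y‖ ^ 2) ^ 2 := by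
          refine mul_le_mul_of_nonneg_left ?_ (by norm_num)
          exact pow_le_pow_left₀ (sq_nonneg _) e2 2
      _ = 16 * LaR G R x ^ 2 * (∑ y ∈ R, KK G x y * ‖GD G μ x y‖ ^ 2) ^ 2 := by ring
      _ ≤ 16 * LaR G R x ^ 2 * (LaR G R x * ∑ y ∈ R, ‖GD G μ x y‖ ^ 4) :=
          mul_le_mul_of_nonneg_left e3 (by positivity)
      _ = 16 * LaR G R x ^ 3 * ∑ y ∈ R, ‖GD G μ x y‖ ^ 4 := by ring
  -- (6)
  have p6 : ∀ x y, ∑ c ∈ b, ‖G x c * G c y‖ ^ 2 ≤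
      Real.sqrt (LaR G b x) * Real.sqrt (LaR G b y) := by
    intro x y
    have e1 : ∑ c ∈ b, ‖G x c * G c y‖ ^ 2 = ∑ c ∈ b, KK G x c * KK G y c := by
      refine Finset.sum_congr rfl fun c _ => ?_
      unfold KK
      rw [norm_mul, mul_pow, hN.hs c y]
    rw [e1]
    unfold LaR
    rw [← Real.sqrt_mul (Finset.sum_nonneg fun c _ => sq_nonneg _)]
    exact Real.le_sqrt_of_sq_le (Finset.sum_mul_sq_le_sq_mul_sq b _ _)
  exact ⟨p1, p2, p3, p4, p5, p6⟩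

end Pool.Agent.AFJ.H1
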