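import Pool.Agent.AFJ.Stmts

set_option autoImplicit false

open scoped BigOperators Matrix

noncomputable section

namespace Pool.Agent.AFJ.H1

open Pool.Agent.LE.QF Pool.Agent.AFJ

theorem nbw : NbwStmt := by
  intro hB X _ _ G κ A b f κv Λ r hN hκv hΛ hr hκb hrho hK
  obtain ⟨h1, -, -, h4, h5, h6⟩ := hB X G κ A f hN
  have hD0 : ∀ x, 0 ≤ DD G κ A f x := by
    intro x
    unfold DD
    refine Finset.sum_nonneg fun y _ => ?_
    refine mul_nonneg (mul_nonneg (hN.hκ y).le ?_) (sq_nonneg _)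
    unfold KK
    positivity
  set s : ℝ := Real.sqrt (r * Λ / κv) with hs
  have hs0 : 0 ≤ s := Real.sqrt_nonneg _
  have hs2 : s ^ 2 = r * Λ / κv := Real.sq_sqrt (by positivity)
  -- the bound for one entry
  have key1 : ∀ x ∈ A, ∀ c, (Ec G κ A c *ᵥ f) x ^ 2 / κ x ≤
      4 * κ x * (KK G x c * ‖bet G κ A f x c‖ ^ 2) := by
    intro x hx c
    rw [h1 c x hx]
    have hk := hN.hκ x
    have e1 : (G x c * bet G κ A f x c).re ^ 2 ≤ KK G x c * ‖bet G κ A f x c‖ ^ 2 := by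
      have a1 := Complex.abs_re_le_norm (G x c * bet G κ A f x c)
      have a2 : (G x c * bet G κ A f x c).re ^ 2 ≤ ‖G x c * bet G κ A f x c‖ ^ 2 := by
        rw [← sq_abs (G x c * bet G κ A f x c).re]
        exact pow_le_pow_left₀ (abs_nonneg _) a1 2
      rw [norm_mul, mul_pow] at a2
      exact a2
    rw [div_le_iff₀ hk]
    have e2 : (-(2 * κ x * (G x c * bet G κ A f x c).re)) ^ 2 =
        4 * κ x * κ x * (G x c * bet G κ A f x c).re ^ 2 := by ring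
    rw [e2]
    have e3 : 4 * κ x * (KK G x c * ‖bet G κ A f x c‖ ^ 2) * κ x =
        4 * κ x * κ x * (KK G x c * ‖bet G κ A f x c‖ ^ 2) := by ring
    rw [e3]
    exact mul_le_mul_of_nonneg_left e1 (by positivity)
  -- the sum over c
  have key2 : ∀ x ∈ A, ∑ c ∈ b, KK G x c * ‖bet G κ A f x c‖ ^ 2 ≤ s * DD G κ A f x := by
    intro x hx
    have hD := hD0 x
    have c1 : (∑ c ∈ b, KK G x c * ‖bet G κ A f x c‖ ^ 2) ^ 2 ≤
        (∑ c ∈ b, KK G x c ^ 2) * ∑ c ∈ b, (‖bet G κ A f x c‖ ^ 2) ^ 2 :=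
      Finset.sum_mul_sq_le_sq_mul_sq b _ _
    have c2 : ∑ c ∈ b, (‖bet G κ A f x c‖ ^ 2) ^ 2 ≤ r * DD G κ A f x * (DD G κ A f x / κv) := by
      have d1 : ∀ c ∈ b, (‖bet G κ A f x c‖ ^ 2) ^ 2 ≤
          r * DD G κ A f x * (κ c * ‖bet G κ A f x c‖ ^ 2 / κv) := by
        intro c hc
        have g1 : ‖bet G κ A f x c‖ ^ 2 ≤ r * DD G κ A f x :=
          (h4 x c).trans (mul_le_mul_of_nonneg_right (hrho c hc) hD)
        have g2 : ‖bet G κ A f x c‖ ^ 2 ≤ κ c * ‖bet G κ A f x c‖ ^ 2 / κv := by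
          rw [le_div_iff₀ hκv, mul_comm]
          exact mul_le_mul_of_nonneg_right (hκb c hc) (sq_nonneg _)
        calc (‖bet G κ A f x c‖ ^ 2) ^ 2
            = ‖bet G κ A f x c‖ ^ 2 * ‖bet G κ A f x c‖ ^ 2 := by ring
          _ ≤ r * DD G κ A f x * (κ c * ‖bet G κ A f x c‖ ^ 2 / κv) :=
            mul_le_mul g1 g2 (sq_nonneg _) (mul_nonneg hr hD)
      refine (Finset.sum_le_sum d1).trans ?_
      rw [← Finset.mul_sum, ← Finset.sum_div]
      refine mul_le_mul_of_nonneg_left ?_ (mul_nonneg hr hD)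
      exact div_le_div_of_nonneg_right (h5 x b) hκv.le
    have c3 : (∑ c ∈ b, KK G x c * ‖bet G κ A f x c‖ ^ 2) ^ 2 ≤ (s * DD G κ A f x) ^ 2 := by
      refine c1.trans ?_
      have c4 : (∑ c ∈ b, KK G x c ^ 2) * ∑ c ∈ b, (‖bet G κ A f x c‖ ^ 2) ^ 2 ≤
          Λ * (r * DD G κ A f x * (DD G κ A f x / κv)) :=
        mul_le_mul (hK x hx) c2 (Finset.sum_nonneg fun c _ => sq_nonneg _) hΛ
      refine c4.trans (le_of_eq ?_)
      rw [mul_pow, hs2]
      ring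
    exact (abs_le_of_sq_le_sq' c3 (mul_nonneg hs0 hD)).2
  rw [Finset.sum_comm]
  have key3 : ∀ x ∈ A, ∑ c ∈ b, (Ec G κ A c *ᵥ f) x ^ 2 / κ x ≤
      4 * s * (κ x * DD G κ A f x) := by
    intro x hx
    refine (Finset.sum_le_sum fun c _ => key1 x hx c).trans ?_
    rw [← Finset.mul_sum]
    have hk := hN.hκ x
    calc 4 * κ x * ∑ c ∈ b, KK G x c * ‖bet G κ A f x c‖ ^ 2
        ≤ 4 * κ x * (s * DD G κ A f x) :=
          mul_le_mul_of_nonneg_left (key2 x hx) (by positivity)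
      _ = 4 * s * (κ x * DD G κ A f x) := by ring
  refine (Finset.sum_le_sum key3).trans (le_of_eq ?_)
  rw [← Finset.mul_sum, h6]
  ring

end Pool.Agent.AFJ.H1
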